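import Pool.Agent.H44.MB2
import Pool.Agent.H44.MB3

open MeasureTheory Filter Topology Real Pool.Agent.H44.MB

theorem Pool.Agent.Results.MP_f1bc00_pr.Q1False.result (b : ℕ) (hb : 1 ≤ b) (p : unitInterval)
    (hp0 : 0 < (p : ℝ)) (hp1 : (p : ℝ) < 1) :
    ∃ c : ℝ, 0 < c ∧ ∃ᶠ n : ℕ in atTop, c ≤ (SimpleGraph.binomialRandom (Fin n) p).real
      {G | ((⌈(gamma G : ℝ) / b⌉₊ : ℕ) : ℕ∞) < gammaMB G b ∧
        ((⌈(gamma G : ℝ) / b⌉₊ : ℕ) : ℕ∞) < gammaMB' G b} := by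
  set C : ℝ := 1 / p * (1 + 2 * exp 1 + 4 * exp 1 * (1 / p)) with hC
  have hC0 : 0 < C := by positivity
  refine ⟨1 / (2 * C), by positivity, frequently_atTop.2 fun n0 => ?_⟩
  have t1 : Tendsto (fun m : ℕ => b * m) atTop atTop :=
    tendsto_atTop_mono (fun m => Nat.le_mul_of_pos_left m hb) tendsto_id
  obtain ⟨m, ⟨E1, E2, E3, E4, E5⟩, hm1, hm2, hm3⟩ := ((t1.eventually (conds hp0 hp1 rfl)).and
    ((eventually_ge_atTop n0).and ((eventually_gt_atTop 0).and
      ((tendsto_natCast_atTop_atTop (R := ℝ)).eventually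
        (eventually_ge_atTop (2 * C / p)))))).exists
  obtain ⟨n, h1, h2, h3, h4, h5⟩ := core hp0 hp1 rfl rfl E1 E2 E3 E4 E5
    (Nat.floor_le (by positivity))
  have hmk : m ≤ b * m := Nat.le_mul_of_pos_left m hb
  refine ⟨n, by omega, le_trans ?_ (le_G p _)⟩
  have key := prob_lower (n := n) p (m := m) (by omega) hm2 (by positivity) (by positivity) _ _
    rfl rfl h2 h3 h4 h5
  refine le_trans ?_ (key.trans (measureReal_mono fun ω hω => det hb h1 hω.1 hω.2))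
  rw [← hC]
  have hm' : (0 : ℝ) < m := by exact_mod_cast hm2
  have a1 : 1 / p / (m : ℝ) ≤ 1 / (2 * C) := by
    rw [div_le_iff₀ hp0] at hm3
    rw [div_div, one_div_le_one_div (by positivity) (by positivity)]
    linarith
  have a2 : 1 / C = 2 * (1 / (2 * C)) := by field_simp
  linarith
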